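import Pool.Agent.Helper2.NNQ.Stm

/-!
# CORE: covering the parameters with prime values in a short interval
-/

set_option autoImplicit false

open MeasureTheory Filter Topology Finset
open scoped Real

namespace Pool.Agent.Helper95.NNQ

open Pool.Agent.Helper2.NNQ

theorem exp2_le : Real.exp 2 ≤ 15 / 2 := by
  have h : Real.exp 2 = Real.exp 1 * Real.exp 1 := by
    rw [← Real.exp_add]
    norm_num
  rw [h]
  have h1 := Real.exp_one_lt_d9
  have h0 := Real.exp_pos 1
  nlinarith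

theorem exp_sub_le {u : ℝ} (h0 : 0 ≤ u) (h1 : u ≤ 1) : Real.exp (2 * u) - 1 ≤ 15 * u := by
  have e1 : 1 - 2 * u ≤ Real.exp (-(2 * u)) := by
    have := Real.add_one_le_exp (-(2 * u))
    linarith
  have e2 : Real.exp (2 * u) * Real.exp (-(2 * u)) = 1 := by
    rw [← Real.exp_add]
    simp
  have e3 : Real.exp (2 * u) ≤ 15 / 2 := (Real.exp_le_exp.2 (by linarith)).trans exp2_le
  have e4 := Real.exp_pos (2 * u)
  nlinarith [mul_le_mul_of_nonneg_left e1 e4.le]

theorem f_le {g : ℝ → ℝ} {σ a b : ℝ} (hg : Reg g σ a b) (hs : σ * (b - a) ≤ 1) {x : ℝ}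
    (hx : x ∈ Set.Icc a b) :
    Real.exp (g x) ≤ Real.exp (g a) + 15 * (σ * (b - a) * Real.exp (g a)) := by
  have hab : a ≤ b := hx.1.trans hx.2
  have h1 : g x - g a ≤ 2 * (σ * (b - a)) := by
    have := hg.hi a x le_rfl hx.1 hx.2
    have h2 : σ * (x - a) ≤ σ * (b - a) := mul_le_mul_of_nonneg_left (by linarith [hx.2]) hg.pos.le
    nlinarith
  have h0 : 0 ≤ σ * (b - a) := mul_nonneg hg.pos.le (by linarith)
  have h2 : Real.exp (g x) = Real.exp (g a) * Real.exp (g x - g a) := by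
    rw [← Real.exp_add]
    ring_nf
  have h3 : Real.exp (g x - g a) ≤ 1 + 15 * (σ * (b - a)) := by
    have := exp_sub_le h0 hs
    have h4 := Real.exp_le_exp.2 h1
    linarith
  rw [h2]
  nlinarith [mul_le_mul_of_nonneg_left h3 (Real.exp_pos (g a)).le]

theorem f_ge {g : ℝ → ℝ} {σ a b : ℝ} (hg : Reg g σ a b) {x : ℝ} (hx : x ∈ Set.Icc a b) :
    Real.exp (g a) ≤ Real.exp (g x) := by
  have h1 := hg.lo a x le_rfl hx.1 hx.2
  have h2 : 0 ≤ σ * (x - a) := mul_nonneg hg.pos.le (by linarith [hx.1])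
  exact Real.exp_le_exp.2 (by linarith)

/-- the diameter of a level set -/
theorem diam_le {g : ℝ → ℝ} {σ a b : ℝ} (hg : Reg g σ a b) {x y : ℝ} {v : ℤ}
    (hx : x ∈ Set.Icc a b) (hy : y ∈ Set.Icc a b) (hvx : ⌊Real.exp (g x)⌋ = v)
    (hvy : ⌊Real.exp (g y)⌋ = v) : y ≤ x + 1 / (σ * Real.exp (g a)) := by
  have hσ := hg.pos
  have hfa := Real.exp_pos (g a)
  have hp : 0 < σ * Real.exp (g a) := by positivity
  rcases le_total y x with hyx | hxy
  · have : 0 ≤ 1 / (σ * Real.exp (g a)) := by positivity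
    linarith
  have h1 : Real.exp (g y) - Real.exp (g x) < 1 := by
    have e1 := Int.floor_le (Real.exp (g x))
    have e2 := Int.lt_floor_add_one (Real.exp (g y))
    rw [hvx] at e1
    rw [hvy] at e2
    linarith
  have h2 : Real.exp (g y) = Real.exp (g x) * Real.exp (g y - g x) := by
    rw [← Real.exp_add]
    ring_nf
  have h3 := Real.add_one_le_exp (g y - g x)
  have h4 := hg.lo x y hx.1 hxy hy.2
  have h5 := f_ge hg hx
  have h6 : 0 ≤ σ * (y - x) := mul_nonneg hσ.le (by linarith)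
  have h7 : Real.exp (g a) * (σ * (y - x)) ≤ Real.exp (g y) - Real.exp (g x) := by
    rw [h2]
    have h8 : Real.exp (g x) * (σ * (y - x)) ≤ Real.exp (g x) * (Real.exp (g y - g x) - 1) :=
      mul_le_mul_of_nonneg_left (by linarith) (Real.exp_pos _).le
    have h9 : Real.exp (g a) * (σ * (y - x)) ≤ Real.exp (g x) * (σ * (y - x)) :=
      mul_le_mul_of_nonneg_right h5 h6
    linarith
  have h10 : (σ * Real.exp (g a)) * (y - x) ≤ 1 := by nlinarith
  have h11 : y - x ≤ 1 / (σ * Real.exp (g a)) := by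
    rw [le_div_iff₀ hp]
    linarith
  linarith

theorem t_CORE (h : S_BTN) : S_CORE := by
  obtain ⟨C, hC1, hB⟩ := h
  refine ⟨C * 17, by positivity, fun k g σ a b hg hab hs hD => ?_⟩
  set D : ℝ := σ * (b - a) * Real.exp (g a) with hDd
  set δ : ℝ := 1 / (σ * Real.exp (g a)) with hδd
  have hσ := hg.pos
  have hfa := Real.exp_pos (g a)
  have hp : 0 < σ * Real.exp (g a) := by positivity
  have hδ : 0 < δ := by positivity
  have hbδ : a + δ ≤ b := by
    have h1 : δ * D = b - a := by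
      rw [hδd, hDd]
      field_simp
    nlinarith
  set v0 : ℤ := ⌊Real.exp (g a)⌋ with hv0
  set N : ℕ := ⌈15 * D⌉₊ + 1 with hN
  have hN1 : (15 * D : ℝ) ≤ (⌈15 * D⌉₊ : ℝ) := Nat.le_ceil _
  have hN2 : (⌈15 * D⌉₊ : ℝ) < 15 * D + 1 := Nat.ceil_lt_add_one (by linarith)
  have hNc : (N : ℝ) = (⌈15 * D⌉₊ : ℝ) + 1 := by
    rw [hN]
    push_cast
    ring
  have hN3 : (N : ℝ) ≤ 17 * D := by rw [hNc]; linarith
  have hN4 : D ≤ (N : ℝ) := by rw [hNc]; linarith
  have hN5 : 2 ≤ N := by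
    have : (2 : ℝ) ≤ N := by linarith
    exact_mod_cast this
  -- the values
  classical
  set V : Finset ℤ := (Finset.Icc v0 (v0 + N)).filter (fun v : ℤ => (v + k).toNat.Prime) with hV
  have hVc : (V.card : ℝ) ≤ C * 17 * D / Real.log D := by
    have h1 : V.card ≤ ((Finset.Icc (v0 + k) (v0 + k + N)).filter
        (fun q : ℤ => q.toNat.Prime)).card := by
      refine Finset.card_le_card_of_injOn (fun v => v + k) ?_ (fun x _ y _ hxy => by simpa using hxy)
      intro v hv
      rw [Finset.mem_coe, hV, Finset.mem_filter, Finset.mem_Icc] at hv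
      rw [Finset.mem_coe, Finset.mem_filter, Finset.mem_Icc]
      exact ⟨⟨by linarith [hv.1.1], by linarith [hv.1.2]⟩, hv.2⟩
    have h2 := hB (v0 + k) N hN5
    have hlD : 0 < Real.log D := Real.log_pos (by linarith)
    have hlN : Real.log D ≤ Real.log N := Real.log_le_log (by linarith) hN4
    calc (V.card : ℝ) ≤ _ := by exact_mod_cast h1
      _ ≤ C * N / Real.log N := h2
      _ ≤ C * (17 * D) / Real.log D := by
        have : 0 < C := by linarith
        gcongr
      _ = _ := by ring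
  -- the starting points
  set t : ℤ → ℝ := fun v =>
    if ({x | x ∈ Set.Icc a b ∧ ⌊Real.exp (g x)⌋ = v} : Set ℝ).Nonempty then
      min (sInf {x | x ∈ Set.Icc a b ∧ ⌊Real.exp (g x)⌋ = v}) (b - δ) else a with ht
  refine ⟨V.image t, ?_, ?_, ?_⟩
  · exact le_trans (by exact_mod_cast Finset.card_image_le) hVc
  · intro s hs'
    obtain ⟨v, -, rfl⟩ := Finset.mem_image.1 hs'
    simp only [ht]
    split_ifs with hne
    · refine ⟨le_min (le_csInf hne fun x hx => hx.1.1) (by linarith), ?_⟩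
      have := min_le_right (sInf {x | x ∈ Set.Icc a b ∧ ⌊Real.exp (g x)⌋ = v}) (b - δ)
      linarith
    · exact ⟨le_rfl, hbδ⟩
  · rintro x ⟨hx1, hx2⟩
    have hx3 : (⌊Real.exp (g x)⌋ + k).toNat.Prime := hx1
    have hmem : ⌊Real.exp (g x)⌋ ∈ V := by
      rw [hV, Finset.mem_filter, Finset.mem_Icc]
      refine ⟨⟨Int.floor_mono (f_ge hg hx2), ?_⟩, hx3⟩
      have h1 := f_le hg hs hx2
      have h2 := Int.floor_le (Real.exp (g x))
      have h3 := Int.lt_floor_add_one (Real.exp (g a))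
      have h4 : ((⌊Real.exp (g x)⌋ : ℤ) : ℝ) < ((v0 + N : ℤ) : ℝ) := by
        push_cast
        rw [hNc]
        linarith
      exact (Int.cast_lt.1 h4).le
    rw [Set.mem_iUnion₂]
    refine ⟨t ⌊Real.exp (g x)⌋, Finset.mem_image_of_mem _ hmem, ?_⟩
    set A : Set ℝ := {y | y ∈ Set.Icc a b ∧ ⌊Real.exp (g y)⌋ = ⌊Real.exp (g x)⌋} with hA
    have hxA : x ∈ A := ⟨hx2, rfl⟩
    have hne : A.Nonempty := ⟨x, hxA⟩
    have hbdd : BddBelow A := ⟨a, fun y hy => hy.1.1⟩
    have htv : t ⌊Real.exp (g x)⌋ = min (sInf A) (b - δ) := by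
      simp only [ht]
      exact if_pos hne
    have h1 : sInf A ≤ x := csInf_le hbdd hxA
    have h2 : x - δ ≤ sInf A := by
      refine le_csInf hne fun y hy => ?_
      have := diam_le hg hy.1 hx2 hy.2 rfl
      linarith
    rw [htv]
    refine ⟨(min_le_left _ _).trans h1, ?_⟩
    rcases min_choice (sInf A) (b - δ) with hm | hm
    · rw [hm]
      linarith
    · rw [hm]
      linarith [hx2.2]

end Pool.Agent.Helper95.NNQ
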